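import Pool.Agent.LibCZ83.Defs

/-!
R4. Functionals and classes of group homology, in terms of chains.

PLAN. exists_eval: `groupHomology M n` is the homology of `groupHomology.inhomogeneousChains M`;
`(inhomogeneousChains M).homologyι n ≫ (inhomogeneousChains M).descOpcycles (ModuleCat.ofHom f) (n+1) _ (hf)`
and `homologyπ ≫ homologyι = iCycles ≫ pOpcycles` (`HomologicalComplex.homology_π_ι`), `p_descOpcycles`. Or: define
`F` on the quotient by hand: `π` is surjective (`ModuleCat.epi_iff_surjective`) and `π x = 0` implies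
`iCycles x = d y` (as in `LibCod83.nontrivial_of_cycle`), `LinearMap` by `Function.Surjective` descent.
exists_class: `groupHomology.cyclesMk`, `iCycles_mk`; for `n = 0` the differential from degree 0 is zero
(`HomologicalComplex.shape`).
exists_map: `groupHomology.π_map`, `HomologicalComplex.cyclesMap_i`.
-/

set_option autoImplicit false

namespace Pool.Agent.LibCZ83

open CategoryTheory Pool.Agent.LibCod83

variable {A : Type} [Group A]

private theorem r4_lin {X Y : Type} [AddCommGroup X] [mX : Module ℤ X] [AddCommGroup Y] [mY : Module ℤ Y]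
    (f : X →+ Y) : ∃ F : X →ₗ[ℤ] Y, ∀ x, F x = f x := by
  refine ⟨{ toFun := fun x => f x, map_add' := fun x y => map_add f x y, map_smul' := fun r x => ?_ }, fun x => rfl⟩
  exact (congrArg f (int_smul_eq_zsmul mX r x)).trans
    ((map_zsmul f r x).trans (int_smul_eq_zsmul mY r (f x)).symm)

private theorem r4_hom {X : ModuleCat.{0} ℤ} (f : X →+ ℤ) :
    ∃ F : X ⟶ ModuleCat.of ℤ ℤ, ∀ x : X, F.hom x = f x := by
  obtain ⟨F, hF⟩ := @r4_lin X ℤ _ X.isModule _ _ f
  exact ⟨@ModuleCat.ofHom ℤ _ X ℤ _ X.isModule _ _ F, hF⟩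

theorem exists_eval (M : Rep.{0} ℤ A) (n : ℕ) (f : ((Fin n → A) →₀ M) →ₗ[ℤ] ℤ)
    (hf : ∀ y : (Fin (n + 1) → A) →₀ M, f (groupHomology.inhomogeneousChains.d M n y) = 0) :
    ∃ F : groupHomology M n →ₗ[ℤ] ℤ, ∀ x : groupHomology.cycles M n,
      F (groupHomology.π M n x) = f (groupHomology.iCycles M n x) := by
  obtain ⟨f₁, hf₁⟩ : ∃ f₁ : (groupHomology.inhomogeneousChains M).X n ⟶ ModuleCat.of ℤ ℤ,
      ∀ x : (Fin n → A) →₀ M, f₁.hom x = f x :=
    @r4_hom ((groupHomology.inhomogeneousChains M).X n) f.toAddMonoidHom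
  have hcat : (groupHomology.inhomogeneousChains M).d (n + 1) n ≫ f₁ = 0 := by
    rw [groupHomology.inhomogeneousChains.d_def]
    refine ConcreteCategory.hom_ext _ _ fun y => ?_
    exact (hf₁ _).trans (hf y)
  obtain ⟨F₁, hF₁⟩ : ∃ F₁ : (groupHomology.inhomogeneousChains M).homology n ⟶ ModuleCat.of ℤ ℤ,
      (groupHomology.inhomogeneousChains M).homologyπ n ≫ F₁ =
        (groupHomology.inhomogeneousChains M).iCycles n ≫ f₁ :=
    ⟨(groupHomology.inhomogeneousChains M).homologyι n ≫
      (groupHomology.inhomogeneousChains M).descOpcycles f₁ (n + 1) (by simp) hcat, by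
      rw [← Category.assoc, HomologicalComplex.homology_π_ι, Category.assoc,
        HomologicalComplex.p_descOpcycles]⟩
  refine ⟨F₁.hom, fun x => ?_⟩
  have h2 : F₁.hom ((groupHomology.inhomogeneousChains M).homologyπ n x) =
      f₁.hom ((groupHomology.inhomogeneousChains M).iCycles n x) :=
    congrArg (fun φ => φ.hom x) hF₁
  exact h2.trans (hf₁ _)

theorem exists_class (M : Rep.{0} ℤ A) (n : ℕ) (z : (Fin n → A) →₀ M)
    (hz : ∀ m (h : n = m + 1), groupHomology.inhomogeneousChains.d M m (h ▸ z) = 0) :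
    ∃ x : groupHomology.cycles M n, groupHomology.iCycles M n x = z := by
  cases n with
  | zero =>
    have h0 : (groupHomology.inhomogeneousChains M).d 0 0 = 0 :=
      HomologicalComplex.shape _ _ _ (by simp)
    exact ⟨groupHomology.cyclesMk 0 0 (by simp) z (by rw [h0]; rfl),
      groupHomology.iCycles_mk (by simp) z (by rw [h0]; rfl)⟩
  | succ m =>
    have h0 : (groupHomology.inhomogeneousChains M).d (m + 1) m z = 0 := by
      rw [groupHomology.inhomogeneousChains.d_def]
      exact hz m rfl
    exact ⟨groupHomology.cyclesMk (m + 1) m (by simp) z h0,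
      groupHomology.iCycles_mk (by simp) z h0⟩

theorem exists_map {B : Type} [Group B] {M : Rep.{0} ℤ A} {N : Rep.{0} ℤ B} (f : A →* B)
    (φ : M ⟶ Rep.res f N) (n : ℕ) (x : groupHomology.cycles M n) :
    ∃ y : groupHomology.cycles N n,
      (groupHomology.map f φ n).hom (groupHomology.π M n x) = groupHomology.π N n y ∧
      groupHomology.iCycles N n y =
        ((groupHomology.chainsMap f φ).f n).hom (groupHomology.iCycles M n x) := by
  refine ⟨(groupHomology.cyclesMap f φ n).hom x, ?_, ?_⟩
  · have h1 := congrArg (fun ψ => ψ.hom x) (groupHomology.π_map f φ n)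
    exact h1
  · have h1 := congrArg (fun ψ => ψ.hom x)
      (HomologicalComplex.cyclesMap_i (groupHomology.chainsMap f φ) n)
    exact h1

end Pool.Agent.LibCZ83
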