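import Pool.Agent.LibCod83.Torus
import Pool.Agent.LibCod83.Duality

/-!
Definitions: the map `H_n(A; ℤ) → H_n(G; ℤ[G/A])`, maps between permutation modules, functionals on
homology groups.
-/

set_option autoImplicit false

namespace Pool.Agent.LibCZ83

open CategoryTheory Pool.Agent.LibCod83

variable {G : Type} [Group G]

/-- the `A`-map `ℤ → ℤ[G/A]`, `1 ↦ [A]` -/
noncomputable def xi (A : Subgroup G) :
    Rep.trivial ℤ A ℤ ⟶ Rep.res A.subtype (Rep.ofMulAction ℤ G (G ⧸ A)) :=
  Rep.ofHom ⟨LinearMap.toSpanSingleton ℤ (MonoidAlgebra ℤ (G ⧸ A))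
    (MonoidAlgebra.single (QuotientGroup.mk 1 : G ⧸ A) (1 : ℤ)), fun a => by
      apply LinearMap.ext_ring
      show (LinearMap.toSpanSingleton ℤ (MonoidAlgebra ℤ (G ⧸ A)) _ (1 : ℤ)) =
        Representation.ofMulAction ℤ G (G ⧸ A) a
          (LinearMap.toSpanSingleton ℤ (MonoidAlgebra ℤ (G ⧸ A)) _ (1 : ℤ))
      rw [LinearMap.toSpanSingleton_apply, one_smul, Representation.ofMulAction_single]
      congr 1
      show (QuotientGroup.mk 1 : G ⧸ A) = QuotientGroup.mk ((a : G) * 1)
      rw [mul_one]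
      exact (QuotientGroup.eq.2 (by rw [inv_one, one_mul]; exact a.2))⟩

theorem xi_apply (A : Subgroup G) (r : ℤ) :
    ((xi A).hom r : MonoidAlgebra ℤ (G ⧸ A)) =
      MonoidAlgebra.single (QuotientGroup.mk 1 : G ⧸ A) r := by
  show LinearMap.toSpanSingleton ℤ (MonoidAlgebra ℤ (G ⧸ A)) _ r = _
  rw [LinearMap.toSpanSingleton_apply, MonoidAlgebra.smul_single, smul_eq_mul, mul_one]

/-- the map `H_n(A; ℤ) → H_n(G; ℤ[G/A])` -/
noncomputable def iA (A : Subgroup G) (n : ℕ) : groupHomology (Rep.trivial ℤ A ℤ) n →ₗ[ℤ]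
    groupHomology (Rep.ofMulAction ℤ G (G ⧸ A)) n :=
  (groupHomology.map A.subtype (xi A) n).hom

/-- the map of permutation modules of a map of `G`-sets -/
noncomputable def push {B V : Type} [MulAction G B] [MulAction G V] (p : B → V)
    (hp : ∀ (g : G) (b : B), p (g • b) = g • p b) :
    Rep.ofMulAction ℤ G B ⟶ Rep.ofMulAction ℤ G V :=
  Rep.ofHom ⟨MonoidAlgebra.mapDomainLinearMap ℤ ℤ p, fun g => by
    refine LinearMap.ext fun c => ?_
    show MonoidAlgebra.mapDomainLinearMap ℤ ℤ p (Representation.ofMulAction ℤ G B g c) =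
      Representation.ofMulAction ℤ G V g (MonoidAlgebra.mapDomainLinearMap ℤ ℤ p c)
    induction c using MonoidAlgebra.induction_linear with
    | zero => simp
    | add a b ha hb => rw [map_add, map_add, ha, hb, map_add, map_add]
    | single b r =>
      rw [Representation.ofMulAction_single]
      simp only [MonoidAlgebra.mapDomainLinearMap_single, Representation.ofMulAction_single, hp]⟩

theorem push_single {B V : Type} [MulAction G B] [MulAction G V] (p : B → V)
    (hp : ∀ (g : G) (b : B), p (g • b) = g • p b) (b : B) (r : ℤ) :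
    ((push p hp).hom (MonoidAlgebra.single b r : MonoidAlgebra ℤ B) : MonoidAlgebra ℤ V) =
      MonoidAlgebra.single (p b) r := by
  show MonoidAlgebra.mapDomainLinearMap ℤ ℤ p (MonoidAlgebra.single b r) = _
  simp

/-- the projection `G/C → G/A` -/
def pr {C A : Subgroup G} (h : C ≤ A) : G ⧸ C → G ⧸ A :=
  Subgroup.quotientMapOfLE h

theorem pr_smul {C A : Subgroup G} (h : C ≤ A) (g : G) (x : G ⧸ C) : pr h (g • x) = g • pr h x := by
  induction x using QuotientGroup.induction_on with
  | H x => rfl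

/-- the map on homology of a map of coefficients -/
noncomputable abbrev Hm {G : Type} [Group G] {M N : Rep.{0} ℤ G} (f : M ⟶ N) (n : ℕ) :
    groupHomology M n →ₗ[ℤ] groupHomology N n :=
  ((groupHomology.functor ℤ G n).map f).hom

end Pool.Agent.LibCZ83
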