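import Pool.Agent.LibCZ83.R2

/-!
R3. `H_m(ℤ^m; ℤ)` embeds into `ℤ`, `H_j(ℤ^m; ℤ) = 0` for `j > m`.

PLAN. Induction on `m`. `m = 0`: `A` is trivial (`Unique`/`Subsingleton A` from `e`), `H_j = 0` for `j > 0` (Mathlib:
homology of the trivial group, e.g. `groupHomology.isZero…` or the inhomogeneous complex, or
`Rep.trivial ℤ A ℤ` is projective / `Tor`; look for `Subsingleton G` in
Mathlib/RepresentationTheory/Homological/GroupHomology/*) and `H_0(A; ℤ) = ` coinvariants `= ℤ`
(`groupHomology.H0Iso`, `coinvariants`; a trivial representation; or an injective map to `ℤ` by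
`groupHomology.H0Iso ≪≫ …`). `m + 1`: `B` = the preimage under `e` of the vectors with last coordinate `0`
(`B = (ker of the last coordinate)`), `B ≃* Multiplicative (Fin m → ℤ)`, `t = e.symm (Pi.single (Fin.last m) 1)`;
`wang_zero`, `wang_inj`, composition of injective maps.
-/

set_option autoImplicit false

namespace Pool.Agent.LibCZ83

open CategoryTheory Pool.Agent.LibCod83

private theorem R3_zero (A : Type) [Group A] [Subsingleton A] :
    ∃ f : groupHomology (Rep.trivial ℤ A ℤ) 0 →ₗ[ℤ] ℤ, Function.Injective f := by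
  have i : groupHomology (Rep.trivial ℤ A ℤ) 0 ≅ ModuleCat.of ℤ ℤ :=
    groupHomology.H0IsoOfIsTrivial (Rep.trivial ℤ A ℤ)
  exact ⟨i.toLinearEquiv.toLinearMap, i.toLinearEquiv.injective⟩

private theorem R3_succ (A : Type) [Group A] [Subsingleton A] (j : ℕ) :
    Subsingleton (groupHomology (Rep.trivial ℤ A ℤ) (j + 1)) :=
  ModuleCat.subsingleton_of_isZero (isZero_groupHomology_succ_of_subsingleton _ j)

/-- The kernel of the last coordinate. -/
private def R3_B {m : ℕ} {A : Type} [Group A] (e : A ≃* Multiplicative (Fin (m + 1) → ℤ)) :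
    Subgroup A where
  carrier := {a | (e a).toAdd (Fin.last m) = 0}
  one_mem' := by
    show (e 1).toAdd (Fin.last m) = 0
    rw [map_one]
    rfl
  mul_mem' := fun {a b} ha hb => by
    have ha' : (e a).toAdd (Fin.last m) = 0 := ha
    have hb' : (e b).toAdd (Fin.last m) = 0 := hb
    show (e (a * b)).toAdd (Fin.last m) = 0
    rw [map_mul, toAdd_mul, Pi.add_apply, ha', hb', add_zero]
  inv_mem' := fun {a} ha => by
    have ha' : (e a).toAdd (Fin.last m) = 0 := ha
    show (e a⁻¹).toAdd (Fin.last m) = 0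
    rw [map_inv, toAdd_inv, Pi.neg_apply, ha', neg_zero]

private theorem R3_mem {m : ℕ} {A : Type} [Group A] (e : A ≃* Multiplicative (Fin (m + 1) → ℤ))
    (a : A) : a ∈ R3_B e ↔ (e a).toAdd (Fin.last m) = 0 := Iff.rfl

private def R3_e {m : ℕ} {A : Type} [Group A] (e : A ≃* Multiplicative (Fin (m + 1) → ℤ)) :
    R3_B e ≃* Multiplicative (Fin m → ℤ) where
  toFun b := Multiplicative.ofAdd fun i => (e (b : A)).toAdd (Fin.castSucc i)
  invFun x := ⟨e.symm (Multiplicative.ofAdd (Fin.snoc (α := fun _ => ℤ) x.toAdd 0)), by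
    rw [R3_mem, MulEquiv.apply_symm_apply, toAdd_ofAdd, Fin.snoc_last]⟩
  left_inv b := by
    apply Subtype.ext
    show e.symm (Multiplicative.ofAdd (Fin.snoc (α := fun _ => ℤ)
      (fun i => (e (b : A)).toAdd (Fin.castSucc i)) 0)) = (b : A)
    rw [MulEquiv.symm_apply_eq]
    apply Multiplicative.toAdd.injective
    rw [toAdd_ofAdd]
    funext i
    refine Fin.lastCases ?_ (fun i => ?_) i
    · rw [Fin.snoc_last]
      exact ((R3_mem e _).1 b.2).symm
    · rw [Fin.snoc_castSucc]
  right_inv x := by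
    apply Multiplicative.toAdd.injective
    funext i
    show (e (e.symm (Multiplicative.ofAdd (Fin.snoc (α := fun _ => ℤ) x.toAdd 0)))).toAdd
      (Fin.castSucc i) = x.toAdd i
    rw [MulEquiv.apply_symm_apply, toAdd_ofAdd, Fin.snoc_castSucc]
  map_mul' a b := by
    apply Multiplicative.toAdd.injective
    funext i
    show (e ((a : A) * b)).toAdd (Fin.castSucc i) = (e (a : A)).toAdd (Fin.castSucc i) +
      (e (b : A)).toAdd (Fin.castSucc i)
    rw [map_mul, toAdd_mul, Pi.add_apply]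

theorem top_zn (m : ℕ) : ∀ (A : Type) [Group A], (A ≃* Multiplicative (Fin m → ℤ)) →
    (∀ j, m < j → Subsingleton (groupHomology (Rep.trivial ℤ A ℤ) j)) ∧
      ∃ f : groupHomology (Rep.trivial ℤ A ℤ) m →ₗ[ℤ] ℤ, Function.Injective f := by
  induction m with
  | zero =>
    intro A _ e
    have hs : Subsingleton (Multiplicative (Fin 0 → ℤ)) :=
      ⟨fun a b => Multiplicative.toAdd.injective (Subsingleton.elim a.toAdd b.toAdd)⟩
    have hA : Subsingleton A := e.injective.subsingleton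
    refine ⟨fun j hj => ?_, R3_zero A⟩
    obtain ⟨j, rfl⟩ := Nat.exists_eq_succ_of_ne_zero hj.ne'
    exact R3_succ A j
  | succ m ih =>
    intro A _ e
    have hc : ∀ a b : A, a * b = b * a := fun a b => by
      apply e.injective
      rw [map_mul, map_mul, mul_comm]
    obtain ⟨t, ht⟩ : ∃ t : A, t = e.symm (Multiplicative.ofAdd (Pi.single (Fin.last m) 1)) :=
      ⟨_, rfl⟩
    have hk : ∀ k : ℤ, (e (t ^ k)).toAdd (Fin.last m) = k := fun k => by
      rw [ht, map_zpow, MulEquiv.apply_symm_apply, toAdd_zpow, toAdd_ofAdd, Pi.smul_apply,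
        Pi.single_eq_same, smul_eq_mul, mul_one]
    have h1 : ∀ k : ℤ, t ^ k ∈ R3_B e → k = 0 := fun k h => by
      rw [R3_mem, hk] at h
      exact h
    have h2 : ∀ a : A, ∃ k : ℤ, t ^ k * a ∈ R3_B e := fun a => by
      refine ⟨-(e a).toAdd (Fin.last m), ?_⟩
      rw [R3_mem, map_mul, toAdd_mul, Pi.add_apply, hk, neg_add_cancel]
    obtain ⟨h3, f, hf⟩ := ih (R3_B e) (R3_e e)
    refine ⟨fun j hj => ?_, ?_⟩
    · obtain ⟨j, rfl⟩ := Nat.exists_eq_succ_of_ne_zero (by omega : j ≠ 0)
      exact wang_zero hc (R3_B e) t h1 h2 j (h3 _ (by omega)) (h3 _ (by omega))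
    · obtain ⟨f', hf'⟩ := wang_inj hc (R3_B e) t h1 h2 m (h3 _ (by omega))
      exact ⟨f ∘ₗ f', hf.comp hf'⟩

end Pool.Agent.LibCZ83
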