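import Pool.Agent.LibCZ83.Defs

/-!
R5. The index of a subgroup of finite index of `ℤ^m` is the determinant.

PLAN. Transport to the additive group: `Additive A ≃+ (Fin m → ℤ)` has the basis `b` given by `e`
(`Pi.basisFun`), `N = C.toAddSubgroup` has finite index, hence (Mathlib: `Submodule.smithNormalForm…`,
`Module.Free`/`finrank` of a submodule with finite quotient, e.g. `Submodule.finrank_of_finite_quotient`?,
`Int`-lattices; `N ≤ ℤ^m` is free of rank `≤ m`, and of rank `m` because the index `q` gives `q • x ∈ N`) has a basis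
`bN : Basis (Fin m) ℤ N`; `e'` is its coordinate map. `AddSubgroup.index_eq_natAbs_det b N bN` (file
Mathlib/LinearAlgebra/FreeModule/Finite/CardQuotient.lean) gives `N.index = (b.det (bN ·)).natAbs`, and
`Basis.det_apply`, `Matrix.det_apply` (`det M = ∑ σ, sign σ • ∏ i, M (σ i) i`, transpose: `Matrix.det_apply'`,
`Matrix.det_transpose`). `vec e a` = the coordinates of `a`, `bas e' i` = the `i`-th basis element of `C`
(LibCod83/Torus.lean).
-/

set_option autoImplicit false

namespace Pool.Agent.LibCZ83

open Pool.Agent.LibCod83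

/-- the lattice of a subgroup -/
private def R5_N {A : Type} [Group A] {m : ℕ} (e : A ≃* Multiplicative (Fin m → ℤ))
    (C : Subgroup A) : AddSubgroup (Fin m → ℤ) where
  carrier := {v | e.symm (Multiplicative.ofAdd v) ∈ C}
  zero_mem' := by
    show e.symm (Multiplicative.ofAdd 0) ∈ C
    rw [ofAdd_zero, map_one]
    exact C.one_mem
  add_mem' := by
    intro v w hv hw
    show e.symm (Multiplicative.ofAdd (v + w)) ∈ C
    rw [ofAdd_add, map_mul]
    exact C.mul_mem hv hw
  neg_mem' := by
    intro v hv
    show e.symm (Multiplicative.ofAdd (-v)) ∈ C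
    rw [ofAdd_neg, map_inv]
    exact C.inv_mem hv

private theorem R5_mem {A : Type} [Group A] {m : ℕ} (e : A ≃* Multiplicative (Fin m → ℤ))
    (C : Subgroup A) (v : Fin m → ℤ) :
    v ∈ R5_N e C ↔ e.symm (Multiplicative.ofAdd v) ∈ C := Iff.rfl

private theorem R5_index {A : Type} [Group A] {m : ℕ} (e : A ≃* Multiplicative (Fin m → ℤ))
    (C : Subgroup A) : (R5_N e C).index = C.index := by
  rw [← Subgroup.index_comap_of_surjective C (f := e.symm.toMonoidHom) e.symm.surjective,
    ← AddSubgroup.index_toSubgroup]
  rfl

theorem det_index {A : Type} [Group A] {m : ℕ} (e : A ≃* Multiplicative (Fin m → ℤ))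
    (C : Subgroup A) (hC : C.index ≠ 0) :
    ∃ e' : C ≃* Multiplicative (Fin m → ℤ),
      (∑ σ : Equiv.Perm (Fin m), (Equiv.Perm.sign σ : ℤ) *
        ∏ i, vec e ((bas e' (σ i) : C) : A) i).natAbs = C.index := by
  classical
  set N := R5_N e C with hN
  have hidx : N.index = C.index := R5_index e C
  have hfin : Finite ((Fin m → ℤ) ⧸ (AddSubgroup.toIntSubmodule N)) := by
    have h1 : N.index ≠ 0 := by rw [hidx]; exact hC
    exact (Nat.finite_of_card_ne_zero h1)
  have hrank : Module.finrank ℤ (AddSubgroup.toIntSubmodule N) = m := by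
    rw [(Submodule.finiteQuotient_iff _).1 hfin, Module.finrank_fin_fun]
  let bN : Module.Basis (Fin m) ℤ N := Module.finBasisOfFinrankEq ℤ (AddSubgroup.toIntSubmodule N) hrank
  have hvec : ∀ c : C, vec e (c : A) ∈ N := by
    intro c
    rw [hN, R5_mem]
    have h1 : e.symm (Multiplicative.ofAdd (vec e (c : A))) = (c : A) := by
      rw [vec, ofAdd_toAdd, MulEquiv.symm_apply_apply]
    rw [h1]
    exact c.2
  let e1 : C ≃* Multiplicative N :=
    { toFun := fun c => Multiplicative.ofAdd ⟨vec e (c : A), hvec c⟩
      invFun := fun v => ⟨e.symm (Multiplicative.ofAdd ((Multiplicative.toAdd v : N) : Fin m → ℤ)),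
        (Multiplicative.toAdd v : N).2⟩
      left_inv := by
        intro c
        apply Subtype.ext
        show e.symm (Multiplicative.ofAdd (vec e (c : A))) = (c : A)
        rw [vec, ofAdd_toAdd, MulEquiv.symm_apply_apply]
      right_inv := by
        intro v
        show Multiplicative.ofAdd _ = v
        apply Multiplicative.toAdd.injective
        apply Subtype.ext
        show vec e (e.symm (Multiplicative.ofAdd ((Multiplicative.toAdd v : N) : Fin m → ℤ))) = _
        rw [vec, MulEquiv.apply_symm_apply]
        rfl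
      map_mul' := by
        intro a b
        show Multiplicative.ofAdd _ = Multiplicative.ofAdd _ * Multiplicative.ofAdd _
        rw [← ofAdd_add]
        congr 1
        apply Subtype.ext
        exact vec_mul e (a : A) (b : A) }
  let e' : C ≃* Multiplicative (Fin m → ℤ) :=
    e1.trans (AddEquiv.toMultiplicative bN.equivFun.toAddEquiv)
  refine ⟨e', ?_⟩
  have hbas : ∀ i, vec e ((bas e' i : C) : A) = (bN i : Fin m → ℤ) := by
    intro i
    have h1 : (bas e' i : C) = e1.symm (Multiplicative.ofAdd (bN i)) := by
      unfold bas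
      show e1.symm (Multiplicative.ofAdd (bN.equivFun.symm (Pi.single i 1))) = _
      rw [Module.Basis.equivFun_symm_apply]
      congr 2
      rw [Finset.sum_eq_single i]
      · rw [Pi.single_eq_same, one_smul]
      · intro j _ hj
        rw [Pi.single_eq_of_ne hj, zero_smul]
      · intro h
        exact absurd (Finset.mem_univ i) h
    rw [h1]
    show vec e (e.symm (Multiplicative.ofAdd (bN i : Fin m → ℤ))) = _
    rw [vec, MulEquiv.apply_symm_apply]
    rfl
  rw [← hidx, AddSubgroup.index_eq_natAbs_det (Pi.basisFun ℤ (Fin m)) N bN]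
  congr 1
  rw [Module.Basis.det_apply, ← Matrix.det_transpose, Matrix.det_apply']
  refine Finset.sum_congr rfl fun σ _ => ?_
  congr 1
  refine Finset.prod_congr rfl fun i _ => ?_
  rw [hbas, Matrix.transpose_apply, Module.Basis.toMatrix_apply, Pi.basisFun_repr]

end Pool.Agent.LibCZ83
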