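import Pool.Agent.LibCZ83.Defs

/-!
R6. The projection `G/C → G/A`: fibres, push forward, pull back.

PLAN. encard_pr: `pr h ⁻¹' {[g]}` is in bijection with `A / (C.subgroupOf A)`
(`a ↦ [g a]`; `QuotientGroup.eq`), whose cardinal is `C.relIndex A` (`Subgroup.relIndex`, `Subgroup.index`,
`Nat.card`); it is finite as the index is not zero. (Mathlib: `Subgroup.quotientSubgroupOfEmbeddingOfLE`.)
exists_pull: `φ c = ∑_v c_v ∑_{o e = v} e`: the coefficients of `φ c` are `c ∘ o`, finitely supported
since the fibres are finite (`Finsupp.comapDomain` needs injectivity, so build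
`Finsupp.linearCombination ℤ (fun v => ∑ e ∈ (hfin v).toFinset, MonoidAlgebra.single e 1)`, or
`Finsupp.onFinset`); linear, and equivariant by `Representation.coeff_ofMulAction`. See
LibMC2/G3.lean (`exists_kappa`) for `Rep.ofHom` and `MonoidAlgebra.coeffLinearEquiv`.
push_pull: on `single v 1` (induction_linear), `push (φ (single v 1)) = ∑_{e over v} single v 1 = q • single v 1`;
`q = encard` of the fibre. Compare coefficients: `c.coeff`, `MonoidAlgebra.ext`-lemmas.
-/

set_option autoImplicit false

namespace Pool.Agent.LibCZ83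

open CategoryTheory Pool.Agent.LibCod83

variable {G : Type} [Group G]

theorem encard_pr {C A : Subgroup G} (h : C ≤ A) (hC : C.relIndex A ≠ 0) (v : G ⧸ A) :
    (pr h ⁻¹' {v}).encard = C.relIndex A := by
  induction v using QuotientGroup.induction_on with
  | H g =>
    have hwd : ∀ a b : A, (QuotientGroup.leftRel (C.subgroupOf A)) a b →
        (QuotientGroup.mk (g * (a : G)) : G ⧸ C) = QuotientGroup.mk (g * (b : G)) := by
      intro a b hab
      rw [QuotientGroup.leftRel_apply, Subgroup.mem_subgroupOf] at hab
      rw [QuotientGroup.eq]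
      have e1 : (g * (a : G))⁻¹ * (g * (b : G)) = ((a⁻¹ * b : A) : G) := by
        push_cast
        group
      rw [e1]
      exact hab
    let F : A ⧸ C.subgroupOf A → G ⧸ C :=
      Quotient.lift (fun a : A => (QuotientGroup.mk (g * (a : G)) : G ⧸ C)) hwd
    have hF : ∀ a : A, F (QuotientGroup.mk a) = QuotientGroup.mk (g * (a : G)) := fun _ => rfl
    have hinj : Function.Injective F := by
      intro x y hxy
      induction x using QuotientGroup.induction_on with
      | H a =>
        induction y using QuotientGroup.induction_on with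
        | H b =>
          rw [hF, hF, QuotientGroup.eq] at hxy
          rw [QuotientGroup.eq, Subgroup.mem_subgroupOf]
          have e1 : (g * (a : G))⁻¹ * (g * (b : G)) = ((a⁻¹ * b : A) : G) := by
            push_cast
            group
          rw [e1] at hxy
          exact hxy
    have hrange : Set.range F = pr h ⁻¹' {(QuotientGroup.mk g : G ⧸ A)} := by
      ext x
      constructor
      · rintro ⟨y, rfl⟩
        induction y using QuotientGroup.induction_on with
        | H a =>
          show (QuotientGroup.mk (g * (a : G)) : G ⧸ A) = QuotientGroup.mk g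
          rw [QuotientGroup.eq]
          have e1 : (g * (a : G))⁻¹ * g = ((a⁻¹ : A) : G) := by
            push_cast
            group
          rw [e1]
          exact (a⁻¹).2
      · induction x using QuotientGroup.induction_on with
        | H y =>
          intro hy
          have hy' : (QuotientGroup.mk y : G ⧸ A) = QuotientGroup.mk g := hy
          rw [eq_comm, QuotientGroup.eq] at hy'
          refine ⟨QuotientGroup.mk ⟨g⁻¹ * y, hy'⟩, ?_⟩
          rw [hF]
          show (QuotientGroup.mk (g * (g⁻¹ * y)) : G ⧸ C) = QuotientGroup.mk y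
          rw [mul_inv_cancel_left]
    have hcard : Nat.card (A ⧸ C.subgroupOf A) = C.relIndex A := rfl
    have : Finite (A ⧸ C.subgroupOf A) := Nat.finite_of_card_ne_zero (by rw [hcard]; exact hC)
    rw [← hrange, ← Set.image_univ, hinj.encard_image, Set.encard_univ, ENat.card_eq_coe_natCard,
      hcard]

theorem exists_pull {B V : Type} [MulAction G B] [MulAction G V] (o : B → V)
    (ho : ∀ (g : G) (e : B), o (g • e) = g • o e) (hfin : ∀ v : V, (o ⁻¹' {v}).Finite) :
    ∃ φ : Rep.ofMulAction ℤ G V ⟶ Rep.ofMulAction ℤ G B,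
      ∀ (c : MonoidAlgebra ℤ V) (e : B),
        (φ.hom c : MonoidAlgebra ℤ B).coeff e = c.coeff (o e) := by
  classical
  have hf : ∀ c : MonoidAlgebra ℤ V, (Function.support fun e : B => c.coeff (o e)).Finite := by
    intro c
    have h1 : (Function.support fun e : B => c.coeff (o e)) ⊆
        ⋃ v ∈ (c.coeff.support : Set V), o ⁻¹' {v} := by
      intro e he
      simp only [Set.mem_iUnion]
      exact ⟨o e, Finsupp.mem_support_iff.2 he, rfl⟩
    exact (Set.Finite.biUnion c.coeff.support.finite_toSet fun v _ => hfin v).subset h1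
  let T : MonoidAlgebra ℤ V →ₗ[ℤ] (B →₀ ℤ) :=
    { toFun := fun c => Finsupp.ofSupportFinite (fun e : B => c.coeff (o e)) (hf c)
      map_add' := fun a b => by
        ext e
        show (a + b).coeff (o e) = a.coeff (o e) + b.coeff (o e)
        rw [MonoidAlgebra.coeff_add, Finsupp.add_apply]
      map_smul' := fun r a => by
        ext e
        show (r • a).coeff (o e) = r • a.coeff (o e)
        rw [MonoidAlgebra.coeff_smul, Finsupp.smul_apply] }
  let φ : MonoidAlgebra ℤ V →ₗ[ℤ] MonoidAlgebra ℤ B :=
    (MonoidAlgebra.coeffLinearEquiv ℤ).symm.toLinearMap ∘ₗ T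
  have hφ : ∀ (c : MonoidAlgebra ℤ V) (e : B), (φ c).coeff e = c.coeff (o e) := fun c e => rfl
  refine ⟨Rep.ofHom ⟨φ, fun g => LinearMap.ext fun c => ?_⟩, hφ⟩
  show φ (Representation.ofMulAction ℤ G V g c) = Representation.ofMulAction ℤ G B g (φ c)
  refine MonoidAlgebra.ext (Finsupp.ext fun e => ?_)
  rw [hφ, Representation.coeff_ofMulAction, Representation.coeff_ofMulAction, hφ, ho]

theorem push_pull {B V : Type} [MulAction G B] [MulAction G V] (o : B → V)
    (ho : ∀ (g : G) (e : B), o (g • e) = g • o e) (q : ℕ)
    (hq : ∀ v : V, (o ⁻¹' {v}).encard = q)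
    (φ : Rep.ofMulAction ℤ G V ⟶ Rep.ofMulAction ℤ G B)
    (hφ : ∀ (c : MonoidAlgebra ℤ V) (e : B),
      (φ.hom c : MonoidAlgebra ℤ B).coeff e = c.coeff (o e)) (c : MonoidAlgebra ℤ V) :
    ((push o ho).hom (φ.hom c) : MonoidAlgebra ℤ V) = (q : ℤ) • c := by
  classical
  induction c using MonoidAlgebra.induction_linear with
  | zero =>
    rw [smul_zero]
    exact (congrArg (push o ho).hom (map_zero φ.hom)).trans (map_zero (push o ho).hom)
  | add a b ha hb =>
    rw [smul_add, ← ha, ← hb]
    exact (congrArg (push o ho).hom (map_add φ.hom a b)).trans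
      (map_add (push o ho).hom (φ.hom a) (φ.hom b))
  | single v r =>
    have hfin : (o ⁻¹' {v}).Finite := by
      rw [← Set.encard_ne_top_iff, hq v]
      exact ENat.natCast_ne_top q
    have h1 : (φ.hom (MonoidAlgebra.single v r : MonoidAlgebra ℤ V) : MonoidAlgebra ℤ B) =
        ∑ e ∈ hfin.toFinset, MonoidAlgebra.single e r := by
      refine MonoidAlgebra.ext (Finsupp.ext fun e => ?_)
      rw [hφ, MonoidAlgebra.coeff_single, Finsupp.single_apply, MonoidAlgebra.coeff_sum,
        Finsupp.finset_sum_apply]
      simp only [MonoidAlgebra.coeff_single, Finsupp.single_apply]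
      rw [Finset.sum_ite_eq' hfin.toFinset e (fun _ => r)]
      by_cases he : v = o e
      · rw [if_pos he, if_pos ((Set.Finite.mem_toFinset hfin).2 he.symm)]
      · rw [if_neg he, if_neg (fun h => he ((Set.Finite.mem_toFinset hfin).1 h).symm)]
    have hcard : hfin.toFinset.card = q := by
      have h2 := hq v
      rw [hfin.encard_eq_coe_toFinset_card] at h2
      exact_mod_cast h2
    have h3 : ((push o ho).hom (∑ e ∈ hfin.toFinset, (MonoidAlgebra.single e r :
        MonoidAlgebra ℤ B) : MonoidAlgebra ℤ B) : MonoidAlgebra ℤ V) =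
        ∑ e ∈ hfin.toFinset, (MonoidAlgebra.single v r : MonoidAlgebra ℤ V) := by
      refine (map_sum (MonoidAlgebra.mapDomainLinearMap ℤ ℤ o) _ _).trans ?_
      refine Finset.sum_congr rfl fun e he => ?_
      rw [MonoidAlgebra.mapDomainLinearMap_single]
      rw [(Set.Finite.mem_toFinset hfin).1 he]
    refine (congrArg (push o ho).hom h1).trans (h3.trans ?_)
    rw [Finset.sum_const, hcard, natCast_zsmul]

end Pool.Agent.LibCZ83
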