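import Pool.Agent.LibCZ83.Defs

/-!
R7. Corestriction and the projection `G/C → G/A`; multiples of the identity; homomorphisms to `ℤ`.

PLAN. pr_iA: `groupHomology.map_comp` twice (`map (MonoidHom.id G) (push …) ∘ map C.subtype (xi C)` and
`map A.subtype (xi A) ∘ map (inclusion h) (idt h)`), then `groupHomology.map_congr` (the homomorphisms agree:
`A.subtype.comp (inclusion h) = C.subtype`; the coefficient maps agree on `1`: `[1] ↦ [1]`). Or on
chains: `homologyMap_comp`, and `chainsMap` of the two sides agree on `single g r`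
(`groupHomology.chainsMap_f_single`, `xi_apply`, `push_single`).
Hm_smul: `groupHomology.functor ℤ G n` is additive: if `f c = q • c` for all `c` then `f = q • 𝟙`; on chains
`chainsMap (MonoidHom.id G) f` is multiplication by `q`; `HomologicalComplex.homologyMap_smul`/`add`, or use
`groupHomology_induction_on` (every class is `π x`, and `cyclesMap … x = q • x` because `iCycles` is
injective). For `q` natural number. See LibMC2/G4.lean for the additivity.
inj_of_surj: `H` embeds in `ℤ`, so is `0` or infinite cyclic; a surjective map to `ℤ` is then injective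
(if `D x = 0`, `x ≠ 0`, choose `y` with `D y = 1`; `φ(y) • x - φ(x) • y` is in the kernel of `φ`, so
`φ(y) • x = φ(x) • y`, apply `D`: `0 = φ(x)`, so `x = 0`).
-/

set_option autoImplicit false

namespace Pool.Agent.LibCZ83

open CategoryTheory Pool.Agent.LibCod83

variable {G : Type} [Group G]

/-- the identity map of the trivial coefficients -/
noncomputable def idt {C A : Subgroup G} (h : C ≤ A) :
    Rep.trivial ℤ C ℤ ⟶ Rep.res (Subgroup.inclusion h) (Rep.trivial ℤ A ℤ) :=
  Rep.ofHom ⟨LinearMap.id, fun _ => rfl⟩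

/-- the corestriction `H_n(C; ℤ) → H_n(A; ℤ)` -/
noncomputable def cores {C A : Subgroup G} (h : C ≤ A) (n : ℕ) :
    groupHomology (Rep.trivial ℤ C ℤ) n →ₗ[ℤ] groupHomology (Rep.trivial ℤ A ℤ) n :=
  (groupHomology.map (Subgroup.inclusion h) (idt h) n).hom

theorem pr_iA {C A : Subgroup G} (h : C ≤ A) (n : ℕ) (x : groupHomology (Rep.trivial ℤ C ℤ) n) :
    Hm (push (pr h) (pr_smul h)) n (iA C n x) = iA A n (cores h n x) := by
  let P : Rep.ofMulAction ℤ G (G ⧸ C) ⟶ Rep.res (MonoidHom.id G) (Rep.ofMulAction ℤ G (G ⧸ A)) :=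
    push (pr h) (pr_smul h)
  have e1 := groupHomology.map_comp C.subtype (MonoidHom.id G) (xi C) P n
  have e2 := groupHomology.map_comp (Subgroup.inclusion h) A.subtype (idt h) (xi A) n
  have e3 : groupHomology.map ((MonoidHom.id G).comp C.subtype) (xi C ≫
      (Rep.resFunctor C.subtype).map P) n =
      groupHomology.map (A.subtype.comp (Subgroup.inclusion h)) (idt h ≫
        (Rep.resFunctor (Subgroup.inclusion h)).map (xi A)) n := by
    refine groupHomology.map_congr rfl ?_ n
    refine LinearMap.ext_ring ?_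
    have e4 : ((xi C).hom (1 : ℤ) : MonoidAlgebra ℤ (G ⧸ C)) =
      MonoidAlgebra.single (QuotientGroup.mk 1 : G ⧸ C) 1 := xi_apply C 1
    have e5 : ((xi A).hom (1 : ℤ) : MonoidAlgebra ℤ (G ⧸ A)) =
      MonoidAlgebra.single (QuotientGroup.mk 1 : G ⧸ A) 1 := xi_apply A 1
    have e6 := push_single (pr h) (pr_smul h) (QuotientGroup.mk 1 : G ⧸ C) 1
    change ((push (pr h) (pr_smul h)).hom ((xi C).hom (1 : ℤ)) : MonoidAlgebra ℤ (G ⧸ A)) =
      (xi A).hom (1 : ℤ)
    rw [e5]
    refine Eq.trans (congrArg _ e4) ?_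
    exact e6
  have e7 := e1.symm.trans (e3.trans e2)
  exact congrArg (fun f => f.hom x) e7

theorem Hm_comp {M N P : Rep.{0} ℤ G} (f : M ⟶ N) (g : N ⟶ P) (n : ℕ) (x : groupHomology M n) :
    Hm (f ≫ g) n x = Hm g n (Hm f n x) := by
  show ((groupHomology.functor ℤ G n).map (f ≫ g)).hom x = _
  rw [Functor.map_comp]
  rfl

private theorem R7_chains {k G : Type} [CommRing k] [Group G] {A B : Rep.{0} k G} (f g : A ⟶ B) :
    groupHomology.chainsMap (MonoidHom.id G) (f + g) =
      groupHomology.chainsMap (MonoidHom.id G) f + groupHomology.chainsMap (MonoidHom.id G) g := by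
  ext n : 1
  apply ModuleCat.hom_ext
  refine Finsupp.lhom_ext fun x a => ?_
  change (groupHomology.chainsMap (MonoidHom.id G) (f + g)).f n (Finsupp.single x a) =
    (groupHomology.chainsMap (MonoidHom.id G) f).f n (Finsupp.single x a) +
      (groupHomology.chainsMap (MonoidHom.id G) g).f n (Finsupp.single x a)
  rw [groupHomology.chainsMap_f_single, groupHomology.chainsMap_f_single,
    groupHomology.chainsMap_f_single, ← Finsupp.single_add]
  rfl

private theorem R7_map {k G : Type} [CommRing k] [Group G] {A B : Rep.{0} k G} (f g : A ⟶ B)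
    (m : ℕ) : (groupHomology.functor k G m).map (f + g) =
      (groupHomology.functor k G m).map f + (groupHomology.functor k G m).map g := by
  change HomologicalComplex.homologyMap (groupHomology.chainsMap (MonoidHom.id G) (f + g)) m =
    HomologicalComplex.homologyMap (groupHomology.chainsMap (MonoidHom.id G) f) m +
      HomologicalComplex.homologyMap (groupHomology.chainsMap (MonoidHom.id G) g) m
  rw [R7_chains, HomologicalComplex.homologyMap_add]

theorem Hm_smul {M : Rep.{0} ℤ G} (f : M ⟶ M) (q : ℕ) (hf : ∀ c : M, f.hom c = (q : ℤ) • c)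
    (n : ℕ) (x : groupHomology M n) : Hm f n x = (q : ℤ) • x := by
  have hadd : ∀ g g' : M ⟶ M, Hm (g + g') n x = Hm g n x + Hm g' n x := by
    intro g g'
    have h2 := congrArg (fun F => F.hom x) (R7_map g g' n)
    exact h2
  have hone : Hm (𝟙 M) n x = x := by
    have h2 := congrArg (fun F => F.hom x) ((groupHomology.functor ℤ G n).map_id M)
    exact h2
  have hext : ∀ g g' : M ⟶ M, (∀ c : M, g.hom c = g'.hom c) → g = g' := by
    intro g g' hg
    apply Rep.Hom.ext
    exact DFunLike.ext _ _ hg
  have hzero : Hm (0 : M ⟶ M) n x = 0 := by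
    have h2 := hadd 0 0
    rw [add_zero] at h2
    exact left_eq_add.1 h2
  have key : ∀ q : ℕ, Hm ((q : ℕ) • (𝟙 M)) n x = (q : ℤ) • x := by
    intro q
    induction q with
    | zero => rw [zero_smul, hzero, Nat.cast_zero, zero_smul]
    | succ q ih =>
      rw [succ_nsmul, hadd, ih, hone]
      push_cast
      rw [add_zsmul, one_zsmul]
  have key2 : ∀ (q : ℕ) (c : M), ((q : ℕ) • (𝟙 M) : M ⟶ M).hom c = (q : ℤ) • c := by
    intro q c
    induction q with
    | zero =>
      rw [zero_smul, Nat.cast_zero, zero_zsmul]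
      rfl
    | succ q ih =>
      have h1 : ((q + 1 : ℕ) • (𝟙 M) : M ⟶ M).hom c = ((q : ℕ) • (𝟙 M) : M ⟶ M).hom c + c := by
        rw [succ_nsmul]
        rfl
      rw [h1, ih]
      push_cast
      rw [add_zsmul, one_zsmul]
  rw [← key q, hext f (q • (𝟙 M)) fun c => by rw [hf c, key2 q c]]

theorem inj_of_surj {H : Type} [AddCommGroup H] (φ : H →+ ℤ) (hφ : Function.Injective φ)
    (D : H →+ ℤ) (hD : Function.Surjective D) : Function.Injective D := by
  rw [injective_iff_map_eq_zero]
  intro x hx
  obtain ⟨y, hy⟩ := hD 1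
  have h1 : φ y • x = φ x • y := by
    apply hφ
    rw [map_zsmul, map_zsmul, smul_eq_mul, smul_eq_mul, mul_comm]
  have h2 := congrArg D h1
  rw [map_zsmul, map_zsmul, hx, hy, smul_zero, smul_eq_mul, mul_one] at h2
  exact hφ (h2.symm.trans (map_zero φ).symm)

end Pool.Agent.LibCZ83
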