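import Pool.Agent.LibCZ83.Defs

/-!
R8. Translation `G/(tAt⁻¹) ≃ G/A`; the stabilizers of `G/A`.

PLAN. exists_rho: `[g] ↦ [g t]`, inverse `[g] ↦ [g t⁻¹]` (`Quotient.map'`/`QuotientGroup`,
`Subgroup.mem_map`, `MulAut.conj_apply`).
-/

set_option autoImplicit false

namespace Pool.Agent.LibCZ83

open CategoryTheory Pool.Agent.LibCod83

variable {G : Type} [Group G]

theorem exists_rho (A : Subgroup G) (t : G) :
    ∃ ρ : G ⧸ (A.map (MulAut.conj t).toMonoidHom) ≃ G ⧸ A,
      ∀ (g : G) (x : G ⧸ (A.map (MulAut.conj t).toMonoidHom)), ρ (g • x) = g • ρ x := by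
  have key : ∀ a b : G, (QuotientGroup.mk a : G ⧸ (A.map (MulAut.conj t).toMonoidHom)) =
      QuotientGroup.mk b ↔ (QuotientGroup.mk (a * t) : G ⧸ A) = QuotientGroup.mk (b * t) := by
    intro a b
    rw [QuotientGroup.eq, QuotientGroup.eq, Subgroup.mem_map]
    constructor
    · rintro ⟨c, hc, h⟩
      have h1 : t * c * t⁻¹ = a⁻¹ * b := h
      have h2 : (a * t)⁻¹ * (b * t) = c := by
        have : (a * t)⁻¹ * (b * t) = t⁻¹ * (a⁻¹ * b) * t := by group
        rw [this, ← h1]
        group
      rw [h2]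
      exact hc
    · intro h
      refine ⟨_, h, ?_⟩
      show t * ((a * t)⁻¹ * (b * t)) * t⁻¹ = a⁻¹ * b
      group
  refine ⟨Equiv.ofBijective
    (fun x => Quotient.liftOn' x (fun g => (QuotientGroup.mk (g * t) : G ⧸ A))
      fun a b hab => (key a b).1 (Quotient.sound' hab)) ⟨?_, ?_⟩, ?_⟩
  · intro x y
    induction x using QuotientGroup.induction_on with
    | H x =>
      induction y using QuotientGroup.induction_on with
      | H y => exact fun h => (key x y).2 h
  · intro y
    induction y using QuotientGroup.induction_on with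
    | H y =>
      refine ⟨QuotientGroup.mk (y * t⁻¹), ?_⟩
      show (QuotientGroup.mk (y * t⁻¹ * t) : G ⧸ A) = QuotientGroup.mk y
      rw [inv_mul_cancel_right]
  · intro g x
    induction x using QuotientGroup.induction_on with
    | H x =>
      show (QuotientGroup.mk (g * x * t) : G ⧸ A) = QuotientGroup.mk (g * (x * t))
      rw [mul_assoc]

end Pool.Agent.LibCZ83
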