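import Pool.Agent.LibCZ83.R1
import Pool.Agent.LibCZ83.R3
import Pool.Agent.LibCZ83.R4
import Pool.Agent.LibCZ83.R5
import Pool.Agent.LibCZ83.R6
import Pool.Agent.LibCZ83.R7
import Pool.Agent.LibCZ83.R8
import Pool.Agent.LibMC2.G5

/-!
Free abelian subgroups of codimension three which are commensurated by an element of modulus
different from one.
-/

set_option autoImplicit false

namespace Pool.Agent.LibCZ83

open CategoryTheory Pool.Agent.LibZIS Pool.Agent.LibCod83 Pool.Agent.LibBS2 Pool.Agent.LibMC2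

theorem exists_diag {A : Type} [Group A] {m : ℕ} (e : A ≃* Multiplicative (Fin m → ℤ)) :
    ∃ D : groupHomology (Rep.trivial ℤ A ℤ) m →ₗ[ℤ] ℤ, Function.Bijective D ∧
      (∀ x : groupHomology.cycles (Rep.trivial ℤ A ℤ) m,
        D (groupHomology.π (Rep.trivial ℤ A ℤ) m x) =
          diagF e (groupHomology.iCycles (Rep.trivial ℤ A ℤ) m x)) := by
  obtain ⟨D, hD⟩ := exists_eval (Rep.trivial ℤ A ℤ) m (diagF e) (diagF_d e)
  refine ⟨D, ?_, hD⟩
  have hs : Function.Surjective D := by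
    obtain ⟨x, hx⟩ := exists_class (Rep.trivial ℤ A ℤ) m (fund e) (fun k h => by
      subst h
      exact d_fund e)
    intro k
    refine ⟨k • groupHomology.π (Rep.trivial ℤ A ℤ) m x, ?_⟩
    rw [map_zsmul, hD, hx, diagF_fund, smul_eq_mul, mul_one]
  obtain ⟨f, hf⟩ := (top_zn m A e).2
  exact ⟨inj_of_surj f.toAddMonoidHom hf D.toAddMonoidHom hs, hs⟩

variable {G : Type} [Group G]

theorem iA_bij (A : Subgroup G) {m : ℕ} (e : A ≃* Multiplicative (Fin m → ℤ)) :
    Function.Bijective (iA A m) := by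
  classical
  obtain ⟨r, hr⟩ := iA_retract A m
  obtain ⟨D, hD, -⟩ := exists_diag e
  obtain ⟨e2⟩ := ind_trivial_iso A
  have e3 : groupHomology (Rep.ind A.subtype (Rep.trivial ℤ A ℤ)) m ≅
      groupHomology (Rep.ofMulAction ℤ G (G ⧸ A)) m :=
    (groupHomology.functor ℤ G m).mapIso e2
  have e4 : groupHomology (Rep.ind A.subtype (Rep.trivial ℤ A ℤ)) m ≅
      groupHomology (Rep.trivial ℤ A ℤ) m :=
    groupHomology.indIso A (Rep.trivial ℤ A ℤ) m
  have e5 := (e3.symm ≪≫ e4).toLinearEquiv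
  have hφ : Function.Injective (D.toAddMonoidHom.comp e5.toAddEquiv.toAddMonoidHom) :=
    hD.1.comp e5.injective
  have hL : Function.Surjective (D.toAddMonoidHom.comp r.toAddMonoidHom) := fun k => by
    obtain ⟨x, hx⟩ := hD.2 k
    exact ⟨iA A m x, by
      show D (r (iA A m x)) = k
      rw [hr, hx]⟩
  have hinj : Function.Injective r := by
    have h1 := inj_of_surj _ hφ _ hL
    intro x y hxy
    exact h1 (by
      show D (r x) = D (r y)
      rw [hxy])
  refine ⟨fun x y hxy => ?_, fun y => ⟨r y, hinj (hr _)⟩⟩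
  rw [← hr x, ← hr y, hxy]

theorem cores_det {C A : Subgroup G} (h : C ≤ A) {m : ℕ} (e : A ≃* Multiplicative (Fin m → ℤ))
    (hC : C.relIndex A ≠ 0) (D : groupHomology (Rep.trivial ℤ A ℤ) m →ₗ[ℤ] ℤ)
    (hD : ∀ x : groupHomology.cycles (Rep.trivial ℤ A ℤ) m,
        D (groupHomology.π (Rep.trivial ℤ A ℤ) m x) =
          diagF e (groupHomology.iCycles (Rep.trivial ℤ A ℤ) m x)) :
    Nonempty (C ≃* Multiplicative (Fin m → ℤ)) ∧
    ∃ D' : groupHomology (Rep.trivial ℤ C ℤ) m →ₗ[ℤ] ℤ, Function.Bijective D' ∧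
      ∃ ε : ℤ, ε.natAbs = C.relIndex A ∧ ∀ x, D (cores h m x) = ε * D' x := by
  classical
  obtain ⟨e'', he⟩ := det_index e (C.subgroupOf A) hC
  let e' : C ≃* Multiplicative (Fin m → ℤ) := (Subgroup.subgroupOfEquivOfLe h).symm.trans e''
  obtain ⟨D', hb, hD'⟩ := exists_diag e'
  have hbas : ∀ i, Subgroup.inclusion h (bas e' i) = ((bas e'' i : C.subgroupOf A) : A) :=
    fun i => rfl
  refine ⟨⟨e'⟩, D', hb, _, he, fun x => ?_⟩
  obtain ⟨z, hz⟩ := exists_class (Rep.trivial ℤ C ℤ) m (fund e') (fun k h => by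
      subst h
      exact d_fund e')
  have h1 : D' (groupHomology.π (Rep.trivial ℤ C ℤ) m z) = 1 := by
    rw [hD', hz, diagF_fund]
  have h2 : x = D' x • groupHomology.π (Rep.trivial ℤ C ℤ) m z := hb.1 (by
    rw [map_zsmul, h1, smul_eq_mul, mul_one])
  have h3 : D (cores h m (groupHomology.π (Rep.trivial ℤ C ℤ) m z)) =
      ∑ σ : Equiv.Perm (Fin m), (Equiv.Perm.sign σ : ℤ) *
        ∏ i, vec e ((bas e'' (σ i) : C.subgroupOf A) : A) i := by
    obtain ⟨y, hy1, hy2⟩ := exists_map (Subgroup.inclusion h) (idt h) m z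
    have h4 : cores h m (groupHomology.π (Rep.trivial ℤ C ℤ) m z) =
        groupHomology.π (Rep.trivial ℤ A ℤ) m y := hy1
    rw [h4, hD, hy2, hz, fund, map_sum, map_sum]
    refine Finset.sum_congr rfl fun σ _ => ?_
    rw [map_smul, map_smul, smul_eq_mul]
    congr 1
    refine (congrArg (diagF e) (groupHomology.chainsMap_f_single (Subgroup.inclusion h) (idt h) m
      (fun i => bas e' (σ i)) (1 : ℤ))).trans ?_
    refine (diagF_single e _ _).trans ?_
    show (1 : ℤ) * _ = _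
    rw [one_mul]
    refine Finset.prod_congr rfl fun i _ => ?_
    rw [← hbas]
    rfl
  rw [h2, map_zsmul, map_zsmul, h3, map_zsmul, h1, smul_eq_mul, smul_eq_mul]
  ring

theorem transfer_bij {C A : Subgroup G} (h : C ≤ A) {m : ℕ}
    (e : A ≃* Multiplicative (Fin m → ℤ)) (hC : C.relIndex A ≠ 0)
    (φ : Rep.ofMulAction ℤ G (G ⧸ A) ⟶ Rep.ofMulAction ℤ G (G ⧸ C))
    (hφ : ∀ (c : MonoidAlgebra ℤ (G ⧸ A)) (x : G ⧸ C),
      (φ.hom c : MonoidAlgebra ℤ (G ⧸ C)).coeff x = c.coeff (pr h x)) :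
    Function.Bijective (Hm φ m) := by
  obtain ⟨D, hDb, hD⟩ := exists_diag e
  obtain ⟨⟨e'⟩, D', hb', ε, hε, hcor⟩ := cores_det h e hC D hD
  have hA := iA_bij A e
  have hCb := iA_bij C e'
  have hq : (C.relIndex A : ℤ) ≠ 0 := by exact_mod_cast hC
  have hε0 : ε ≠ 0 := by
    rintro rfl
    exact hC hε.symm
  -- the relation
  have key : ∀ (a : groupHomology (Rep.trivial ℤ A ℤ) m)
      (c : groupHomology (Rep.trivial ℤ C ℤ) m), Hm φ m (iA A m a) = iA C m c →
      ε * D' c = (C.relIndex A : ℤ) * D a := by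
    intro a c hac
    have h1 : Hm (push (pr h) (pr_smul h)) m (Hm φ m (iA A m a)) =
        (C.relIndex A : ℤ) • iA A m a := by
      rw [← Hm_comp]
      exact Hm_smul _ (C.relIndex A) (fun c => push_pull (pr h) (pr_smul h) (C.relIndex A)
        (encard_pr h hC) φ hφ c) m _
    rw [hac, pr_iA, ← map_zsmul] at h1
    have h2 := congrArg D (hA.1 h1)
    rw [hcor, map_zsmul, smul_eq_mul] at h2
    exact h2
  have hs : ε = (C.relIndex A : ℤ) ∨ ε = -(C.relIndex A : ℤ) := by
    rw [← hε]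
    exact Int.natAbs_eq ε
  have key2 : ∀ (a : groupHomology (Rep.trivial ℤ A ℤ) m)
      (c : groupHomology (Rep.trivial ℤ C ℤ) m), Hm φ m (iA A m a) = iA C m c →
      (ε = (C.relIndex A : ℤ) → D' c = D a) ∧ (ε = -(C.relIndex A : ℤ) → D' c = - D a) := by
    intro a c hac
    have h1 := key a c hac
    refine ⟨fun h2 => ?_, fun h2 => ?_⟩
    · rw [h2] at h1
      exact mul_left_cancel₀ hq h1
    · rw [h2] at h1
      have h3 : (C.relIndex A : ℤ) * (D' c) = (C.relIndex A : ℤ) * (- D a) := by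
        linear_combination -h1
      exact mul_left_cancel₀ hq h3
  constructor
  · rw [injective_iff_map_eq_zero]
    intro x hx
    obtain ⟨a, rfl⟩ := hA.2 x
    have h1 := key a 0 (by rw [hx, map_zero])
    rw [map_zero, mul_zero] at h1
    have h2 : D a = 0 := by
      rcases mul_eq_zero.1 h1.symm with h3 | h3
      · exact absurd h3 hq
      · exact h3
    rw [(hDb.1 (h2.trans (map_zero D).symm) : a = 0), map_zero]
  · intro y
    obtain ⟨c, rfl⟩ := hCb.2 y
    rcases hs with hs | hs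
    · obtain ⟨a, ha⟩ := hDb.2 (D' c)
      obtain ⟨c', hc'⟩ := hCb.2 (Hm φ m (iA A m a))
      have h1 := (key2 a c' hc'.symm).1 hs
      refine ⟨iA A m a, ?_⟩
      rw [← hc', hb'.1 (h1.trans ha)]
    · obtain ⟨a, ha⟩ := hDb.2 (-D' c)
      obtain ⟨c', hc'⟩ := hCb.2 (Hm φ m (iA A m a))
      have h1 := (key2 a c' hc'.symm).2 hs
      refine ⟨iA A m a, ?_⟩
      rw [← hc', hb'.1 (h1.trans (by rw [ha, neg_neg]))]

/-- two bijective homomorphisms between infinite cyclic groups agree up to sign on a generator -/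
theorem sign_of_bij {H K : Type} [AddCommGroup H] [AddCommGroup K] (D : H →+ ℤ)
    (hD : Function.Bijective D) (f g : H →+ K) (hf : Function.Bijective f)
    (hg : Function.Bijective g) : ∃ u : H, u ≠ 0 ∧ (f u = g u ∨ f u = - g u) := by
  obtain ⟨u, hu⟩ := hD.2 1
  have hu0 : u ≠ 0 := by
    rintro rfl
    rw [map_zero] at hu
    exact zero_ne_one hu
  have gen : ∀ x : H, x = D x • u := fun x => hD.1 (by rw [map_zsmul, hu, smul_eq_mul, mul_one])
  refine ⟨u, hu0, ?_⟩
  obtain ⟨v, hv⟩ := hg.2 (f u)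
  obtain ⟨w, hw⟩ := hf.2 (g u)
  have h1 : f u = D v • g u := by rw [← hv, gen v, map_zsmul, map_zsmul, hu, smul_eq_mul, mul_one]
  have h2 : g u = D w • f u := by rw [← hw, gen w, map_zsmul, map_zsmul, hu, smul_eq_mul, mul_one]
  have h3 : (D w * D v) • g u = g u := by
    conv_rhs => rw [h2, h1]
    rw [mul_smul]
  have h4 : g ((D w * D v) • u) = g u := by rw [map_zsmul, h3]
  have h5 := congrArg D (hg.1 h4)
  rw [map_zsmul, hu, smul_eq_mul, mul_one] at h5
  have h6 : IsUnit (D v) := IsUnit.of_mul_eq_one (D w) (by rw [mul_comm]; exact h5)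
  rcases Int.isUnit_iff.1 h6 with h7 | h7
  · left
    rw [h1, h7, one_smul]
  · right
    rw [h1, h7, neg_smul, one_smul]

universe v

/-- **Free abelian subgroups of codimension three with a commensurating element of modulus
different from one.** -/
theorem main_Zn {E : Type v} [TopologicalSpace E] [PathConnectedSpace E]
    [MulAction G E] [ContinuousConstSMul G E]
    (hfree : ∀ (g : G) (e : E), g • e = e → g = 1) (hE : H1Zero E) (m : ℕ)
    (hG : IsPD G (m + 3)) (A : Subgroup G) (e : A ≃* Multiplicative (Fin m → ℤ)) (t : G)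
    (h1 : (A ⊓ A.map (MulAut.conj t).toMonoidHom).relIndex A ≠ 0)
    (h2 : (A ⊓ A.map (MulAut.conj t).toMonoidHom).relIndex
      (A.map (MulAut.conj t).toMonoidHom) ≠ 0)
    (h3 : (A ⊓ A.map (MulAut.conj t).toMonoidHom).relIndex A ≠
      (A ⊓ A.map (MulAut.conj t).toMonoidHom).relIndex (A.map (MulAut.conj t).toMonoidHom)) :
    ∃ i, i ≤ 2 ∧ Nontrivial (Hgy (lam G) E i) := by
  have hA : Amenable A := amenable_congr e.symm (amenable_zn m)
  let e' : A.map (MulAut.conj t).toMonoidHom ≃* Multiplicative (Fin m → ℤ) :=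
    (A.equivMapOfInjective _ (MulAut.conj t).injective).symm.trans e
  obtain ⟨ρ, hρ⟩ := exists_rho A t
  have l1 : A ⊓ A.map (MulAut.conj t).toMonoidHom ≤ A := inf_le_left
  have l2 : A ⊓ A.map (MulAut.conj t).toMonoidHom ≤ A.map (MulAut.conj t).toMonoidHom :=
    inf_le_right
  have hρ' : ∀ (g : G) (x : G ⧸ A), ρ.symm (g • x) = g • ρ.symm x := fun g x =>
    ρ.injective (by rw [hρ, Equiv.apply_symm_apply, Equiv.apply_symm_apply])
  have f1 : ∀ v, (pr l1 ⁻¹' {v}).encard = _ := encard_pr l1 h1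
  have f2 : ∀ v, (pr l2 ⁻¹' {v}).encard = _ := encard_pr l2 h2
  obtain ⟨φ, hφ⟩ := exists_pull (pr l1) (pr_smul l1) fun v =>
    Set.finite_of_encard_eq_coe (f1 v)
  obtain ⟨φ', hφ'⟩ := exists_pull (pr l2) (pr_smul l2) fun v =>
    Set.finite_of_encard_eq_coe (f2 v)
  let o : G ⧸ (A ⊓ A.map (MulAut.conj t).toMonoidHom) → G ⧸ A := pr l1
  let t' : G ⧸ (A ⊓ A.map (MulAut.conj t).toMonoidHom) → G ⧸ A := fun x => ρ (pr l2 x)
  have ht' : ∀ (g : G) (x : G ⧸ (A ⊓ A.map (MulAut.conj t).toMonoidHom)),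
      t' (g • x) = g • t' x := fun g x => by
    show ρ (pr l2 (g • x)) = g • ρ (pr l2 x)
    rw [pr_smul, hρ]
  have f3 : ∀ v, (t' ⁻¹' {v}).encard =
      ((A ⊓ A.map (MulAut.conj t).toMonoidHom).relIndex (A.map (MulAut.conj t).toMonoidHom)) := by
    intro v
    have : t' ⁻¹' {v} = pr l2 ⁻¹' {ρ.symm v} := by
      ext x
      show ρ (pr l2 x) = v ↔ pr l2 x = ρ.symm v
      rw [Equiv.eq_symm_apply]
    rw [this, f2]
  -- the pull back along `t'`
  let ψ : Rep.ofMulAction ℤ G (G ⧸ A) ⟶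
      Rep.ofMulAction ℤ G (G ⧸ (A ⊓ A.map (MulAut.conj t).toMonoidHom)) := push ρ.symm hρ' ≫ φ'
  have hψ : ∀ (c : MonoidAlgebra ℤ (G ⧸ A))
      (x : G ⧸ (A ⊓ A.map (MulAut.conj t).toMonoidHom)),
      (ψ.hom c : MonoidAlgebra ℤ (G ⧸ (A ⊓ A.map (MulAut.conj t).toMonoidHom))).coeff x =
        c.coeff (t' x) := by
    intro c x
    refine (hφ' ((push ρ.symm hρ').hom c) x).trans ?_
    show ((push ρ.symm hρ').hom c : MonoidAlgebra ℤ _).coeff (pr l2 x) = c.coeff (ρ (pr l2 x))
    classical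
    induction c using MonoidAlgebra.induction_linear with
    | zero => rw [map_zero]; rfl
    | add a b ha hb =>
      rw [map_add]
      exact congrArg₂ (· + ·) ha hb
    | single v r =>
      rw [push_single, MonoidAlgebra.coeff_single, MonoidAlgebra.coeff_single,
        Finsupp.single_apply, Finsupp.single_apply]
      simp only [Equiv.symm_apply_eq]
  have b1 : Function.Bijective (Hm φ m) := transfer_bij l1 e h1 φ hφ
  have b2 : Function.Bijective (Hm φ' m) := transfer_bij l2 e' h2 φ' hφ'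
  have b3 : Function.Bijective (Hm (push ρ.symm hρ') m) := by
    have w1 : push ρ.symm hρ' ≫ push ρ hρ = 𝟙 _ := by
      refine Rep.hom_ext (DFunLike.ext _ _ fun c => ?_)
      show (push ρ hρ).hom ((push ρ.symm hρ').hom c) = c
      induction c using MonoidAlgebra.induction_linear with
      | zero => rw [map_zero, map_zero]
      | add a b ha hb => rw [map_add, map_add, ha, hb]
      | single v r => rw [push_single, push_single, Equiv.apply_symm_apply]
    have w2 : push ρ hρ ≫ push ρ.symm hρ' = 𝟙 _ := by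
      refine Rep.hom_ext (DFunLike.ext _ _ fun c => ?_)
      show (push ρ.symm hρ').hom ((push ρ hρ).hom c) = c
      induction c using MonoidAlgebra.induction_linear with
      | zero => rw [map_zero, map_zero]
      | add a b ha hb => rw [map_add, map_add, ha, hb]
      | single v r => rw [push_single, push_single, Equiv.symm_apply_apply]
    refine Function.bijective_iff_has_inverse.2 ⟨Hm (push ρ hρ) m, fun x => ?_, fun x => ?_⟩
    · rw [← Hm_comp, w1]
      show ((groupHomology.functor ℤ G m).map (𝟙 _)).hom x = x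
      rw [CategoryTheory.Functor.map_id]
      rfl
    · rw [← Hm_comp, w2]
      show ((groupHomology.functor ℤ G m).map (𝟙 _)).hom x = x
      rw [CategoryTheory.Functor.map_id]
      rfl
  have b4 : Function.Bijective (Hm ψ m) := by
    have : (Hm ψ m : _ → _) = Hm φ' m ∘ Hm (push ρ.symm hρ') m := by
      funext x
      exact Hm_comp _ _ m x
    rw [this]
    exact b2.comp b3
  -- the generator
  obtain ⟨D, hD, -⟩ := exists_diag e
  have hAb := iA_bij A e
  let I : groupHomology (Rep.trivial ℤ A ℤ) m ≃ₗ[ℤ]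
      groupHomology (Rep.ofMulAction ℤ G (G ⧸ A)) m := LinearEquiv.ofBijective (iA A m) hAb
  obtain ⟨u, hu0, hu⟩ := sign_of_bij (D ∘ₗ I.symm.toLinearMap).toAddMonoidHom
    (hD.comp I.symm.bijective) (Hm φ m).toAddMonoidHom (Hm ψ m).toAddMonoidHom b1 b4
  exact main_graph (E := E) hfree hE (m + 3) (by omega) hG (amenable_stabilizer A hA) o t'
    (pr_smul l1) ht' _ _ h3.symm f1 f3 φ ψ hφ hψ u hu0 hu

end Pool.Agent.LibCZ83
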