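import Pool.Agent.LibCZ83.Defs

/-!
R1. `H_n(A; ℤ) → H_n(G; ℤ[G/A])` is split injective.

PLAN. Choose a section `s : G/A → G`, `s x = x.out` except `s [1] = 1` (so `(s x : G ⧸ A) = x`). For
`g : Fin n → G` and `x : G/A` let `x_0 = x`, `x_{i+1} = g_i⁻¹ • x_i` (i.e. `x_i = (g_0 ⋯ g_{i-1})⁻¹ • x`; recursion on ℕ
with `if h : i < n then (g ⟨i,h⟩)⁻¹ • x_i else x_i` or use `Fin.partialProd g i`: `x_i = (Fin.partialProd g i)⁻¹ • x`)
and `c_i = (s x_i)⁻¹ * g_i * s x_{i+1} ∈ A`. The chain map
`r : inhomogeneousChains (Rep.ofMulAction ℤ G (G ⧸ A)) ⟶ inhomogeneousChains (Rep.trivial ℤ A ℤ)` is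
`single g (single x 1) ↦ single c 1` in each degree (`Finsupp.lsum`, `Finsupp.linearCombination`,
`MonoidAlgebra.coeffLinearEquiv`). It commutes with `d` (`groupHomology.inhomogeneousChains.d_single`,
`d_def`; `ρ (g 0)⁻¹` moves `x` to `x_1`; `c_i c_{i+1} = (s x_i)⁻¹ g_i g_{i+1} s x_{i+2}`; the last face drops `c_n`).
`chainsMap A.subtype (xi A) ≫ r = 𝟙`: for `g` in `A` and `x = [1]` all `x_i = [1]`, `s = 1`. Take
`HomologicalComplex.homologyMap r n`; `homologyMap_comp`, `homologyMap_id`. (Universe: everything in `Type`.)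
You may use any other construction of `r`.
-/

set_option autoImplicit false

namespace Pool.Agent.LibCZ83

open CategoryTheory Pool.Agent.LibCod83

variable {G : Type} [Group G]

open scoped Classical in
/-- a section of `G → G/A` with `s [1] = 1` -/
noncomputable def R1_s (A : Subgroup G) (x : G ⧸ A) : G :=
  if x = QuotientGroup.mk 1 then 1 else x.out

theorem R1_s_mk (A : Subgroup G) (x : G ⧸ A) : (QuotientGroup.mk (R1_s A x) : G ⧸ A) = x := by
  unfold R1_s
  split_ifs with h
  · exact h.symm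
  · exact QuotientGroup.out_eq' x

theorem R1_s_one (A : Subgroup G) : R1_s A (QuotientGroup.mk 1) = 1 := by
  unfold R1_s
  rw [if_pos rfl]

theorem R1_mem (A : Subgroup G) (g : G) (x : G ⧸ A) :
    (R1_s A x)⁻¹ * (g * R1_s A (g⁻¹ • x)) ∈ A := by
  rw [← QuotientGroup.eq, R1_s_mk]
  have h : (QuotientGroup.mk (g * R1_s A (g⁻¹ • x)) : G ⧸ A) =
      g • (QuotientGroup.mk (R1_s A (g⁻¹ • x)) : G ⧸ A) := rfl
  rw [h, R1_s_mk, smul_inv_smul]

/-- the cocycle -/
noncomputable def R1_co (A : Subgroup G) (g : G) (x : G ⧸ A) : A :=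
  ⟨(R1_s A x)⁻¹ * (g * R1_s A (g⁻¹ • x)), R1_mem A g x⟩

theorem R1_co_mul (A : Subgroup G) (g h : G) (x : G ⧸ A) :
    R1_co A (g * h) x = R1_co A g x * R1_co A h (g⁻¹ • x) := by
  apply Subtype.ext
  show (R1_s A x)⁻¹ * (g * h * R1_s A ((g * h)⁻¹ • x)) =
    (R1_s A x)⁻¹ * (g * R1_s A (g⁻¹ • x)) *
      ((R1_s A (g⁻¹ • x))⁻¹ * (h * R1_s A (h⁻¹ • g⁻¹ • x)))
  rw [mul_inv_rev, mul_smul]
  group

theorem R1_co_one (A : Subgroup G) (a : A) : R1_co A (a : G) (QuotientGroup.mk 1) = a := by
  apply Subtype.ext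
  show (R1_s A (QuotientGroup.mk 1))⁻¹ * ((a : G) * R1_s A ((a : G)⁻¹ • QuotientGroup.mk 1)) = a
  have h : ((a : G)⁻¹ • (QuotientGroup.mk 1 : G ⧸ A)) = QuotientGroup.mk 1 := by
    show (QuotientGroup.mk ((a : G)⁻¹ * 1) : G ⧸ A) = QuotientGroup.mk 1
    rw [QuotientGroup.eq, mul_one, mul_one, inv_inv]
    exact a.2
  rw [h, R1_s_one, inv_one, one_mul, mul_one]

/-- the tuple of the values of the cocycle -/
noncomputable def R1_c (A : Subgroup G) {n : ℕ} (g : Fin n → G) (x : G ⧸ A) : Fin n → A :=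
  fun i => R1_co A (g i) ((Fin.partialProd g i.castSucc)⁻¹ • x)

theorem R1_c_tail (A : Subgroup G) {n : ℕ} (g : Fin (n + 1) → G) (x : G ⧸ A) :
    R1_c A (fun i => g i.succ) ((g 0)⁻¹ • x) = fun i => R1_c A g x i.succ := by
  funext i
  unfold R1_c
  have h : Fin.partialProd g i.succ.castSucc = g 0 * Fin.partialProd (fun i => g i.succ) i.castSucc :=
    Fin.partialProd_succ' g i.castSucc
  rw [h, mul_inv_rev, mul_smul]

theorem R1_c_contract (A : Subgroup G) {n : ℕ} (g : Fin (n + 1) → G) (x : G ⧸ A)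
    (j : Fin (n + 1)) :
    R1_c A (Fin.contractNth j (· * ·) g) x = Fin.contractNth j (· * ·) (R1_c A g x) := by
  funext k
  have h0 : R1_c A (Fin.contractNth j (· * ·) g) x k = R1_co A (Fin.contractNth j (· * ·) g k)
      ((Fin.partialProd g (j.succ.succAbove k.castSucc))⁻¹ • x) := by
    unfold R1_c
    rw [Fin.partialProd_contractNth]
    rfl
  rw [h0]
  rcases lt_trichotomy (k : ℕ) j with (h | h | h)
  · rw [Fin.contractNth_apply_of_lt _ _ _ _ h, Fin.contractNth_apply_of_lt _ _ _ _ h,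
      Fin.succAbove_of_castSucc_lt _ _ (by
        rw [Fin.lt_def]
        simp only [Fin.val_castSucc, Fin.val_succ]
        omega)]
    rfl
  · rw [Fin.contractNth_apply_of_eq _ _ _ _ h, Fin.contractNth_apply_of_eq _ _ _ _ h,
      Fin.succAbove_of_castSucc_lt _ _ (by
        rw [Fin.lt_def]
        simp only [Fin.val_castSucc, Fin.val_succ]
        omega), R1_co_mul]
    unfold R1_c
    have h1 : Fin.partialProd g k.succ.castSucc =
        Fin.partialProd g k.castSucc.castSucc * g k.castSucc :=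
      Fin.partialProd_succ g k.castSucc
    rw [h1, mul_inv_rev, mul_smul]
  · rw [Fin.contractNth_apply_of_gt _ _ _ _ h, Fin.contractNth_apply_of_gt _ _ _ _ h,
      Fin.succAbove_of_le_castSucc _ _ (by
        rw [Fin.le_def]
        simp only [Fin.val_castSucc, Fin.val_succ]
        omega)]
    rfl

theorem R1_c_one (A : Subgroup G) {n : ℕ} (g : Fin n → A) :
    R1_c A (fun i => (g i : G)) (QuotientGroup.mk 1) = g := by
  funext i
  unfold R1_c
  have h : ((Fin.partialProd (fun i => (g i : G)) i.castSucc)⁻¹ • (QuotientGroup.mk 1 : G ⧸ A)) =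
      QuotientGroup.mk 1 := by
    have h1 : ∀ j, Fin.partialProd (fun i => (g i : G)) j ∈ A := by
      intro j
      induction j using Fin.induction with
      | zero => rw [Fin.partialProd_zero]; exact A.one_mem
      | succ j ih => rw [Fin.partialProd_succ]; exact A.mul_mem ih (g j).2
    show (QuotientGroup.mk ((Fin.partialProd (fun i => (g i : G)) i.castSucc)⁻¹ * 1) : G ⧸ A) =
      QuotientGroup.mk 1
    rw [QuotientGroup.eq, mul_one, mul_one, inv_inv]
    exact h1 _
  rw [h, R1_co_one]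

/-- the retraction in degree `n` -/
noncomputable def R1_f (A : Subgroup G) (n : ℕ) :
    ((Fin n → G) →₀ MonoidAlgebra ℤ (G ⧸ A)) →ₗ[ℤ] ((Fin n → A) →₀ ℤ) :=
  Finsupp.lsum ℤ fun g => Finsupp.lmapDomain ℤ ℤ (R1_c A g) ∘ₗ
    (MonoidAlgebra.coeffLinearEquiv ℤ).toLinearMap

theorem R1_f_single (A : Subgroup G) (n : ℕ) (g : Fin n → G) (x : G ⧸ A) (m : ℤ) :
    R1_f A n (Finsupp.single g (MonoidAlgebra.single x m)) = Finsupp.single (R1_c A g x) m := by
  unfold R1_f
  simp

theorem R1_comm (A : Subgroup G) (n : ℕ) :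
    (ModuleCat.ofHom (R1_f A (n + 1)) : ModuleCat.of ℤ ((Fin (n + 1) → G) →₀
      (Rep.ofMulAction ℤ G (G ⧸ A))) ⟶ ModuleCat.of ℤ ((Fin (n + 1) → A) →₀ Rep.trivial ℤ A ℤ)) ≫
      groupHomology.inhomogeneousChains.d (Rep.trivial ℤ A ℤ) n =
    groupHomology.inhomogeneousChains.d (Rep.ofMulAction ℤ G (G ⧸ A)) n ≫
      ModuleCat.ofHom (R1_f A n) := by
  apply ModuleCat.hom_ext
  apply Finsupp.lhom_ext
  intro g a
  rw [ModuleCat.hom_comp, ModuleCat.hom_comp, LinearMap.comp_apply, LinearMap.comp_apply]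
  have key : ∀ a : MonoidAlgebra ℤ (G ⧸ A),
      (groupHomology.inhomogeneousChains.d (Rep.trivial ℤ A ℤ) n).hom
        (R1_f A (n + 1) (Finsupp.single g a)) =
      R1_f A n ((groupHomology.inhomogeneousChains.d (Rep.ofMulAction ℤ G (G ⧸ A)) n).hom
        (Finsupp.single g a)) := by
    intro a
    induction a using MonoidAlgebra.induction_linear with
    | zero => simp
    | add a b ha hb =>
      rw [Finsupp.single_add, map_add, map_add, ha, hb]
      erw [map_add]
      rw [map_add]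
    | single x m =>
      rw [R1_f_single]
      have e1 := groupHomology.inhomogeneousChains.d_single (A := Rep.trivial ℤ A ℤ) n
        (R1_c A g x) m
      have e2 := groupHomology.inhomogeneousChains.d_single
        (A := Rep.ofMulAction ℤ G (G ⧸ A)) n g (MonoidAlgebra.single x m)
      erw [e1, e2]
      rw [Representation.ofMulAction_single]
      have e3 : (R1_f A n)
          (Finsupp.single (fun i => g i.succ) (MonoidAlgebra.single ((g 0)⁻¹ • x) m) +
            ∑ j : Fin (n + 1), (-1 : ℤ) ^ ((j : ℕ) + 1) •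
              Finsupp.single (j.contractNth (fun x1 x2 => x1 * x2) g) (MonoidAlgebra.single x m)) =
          Finsupp.single (fun i => R1_c A g x i.succ) m +
            ∑ j : Fin (n + 1), (-1 : ℤ) ^ ((j : ℕ) + 1) •
              Finsupp.single (j.contractNth (fun x1 x2 => x1 * x2) (R1_c A g x)) m := by
        rw [map_add, map_sum, R1_f_single, R1_c_tail]
        congr 1
        refine Finset.sum_congr rfl fun j _ => ?_
        rw [map_smul, R1_f_single, R1_c_contract]
      exact e3.symm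
  exact key a

/-- the retraction of chain complexes -/
noncomputable def R1_r (A : Subgroup G) :
    groupHomology.inhomogeneousChains (Rep.ofMulAction ℤ G (G ⧸ A)) ⟶
      groupHomology.inhomogeneousChains (Rep.trivial ℤ A ℤ) where
  f n := ModuleCat.ofHom (R1_f A n)
  comm' := by
    rintro i j (hij : j + 1 = i)
    subst hij
    rw [groupHomology.inhomogeneousChains.d_def, groupHomology.inhomogeneousChains.d_def]
    exact R1_comm A j

theorem R1_comp (A : Subgroup G) :
    groupHomology.chainsMap A.subtype (xi A) ≫ R1_r A = 𝟙 _ := by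
  apply HomologicalComplex.hom_ext
  intro n
  apply ModuleCat.hom_ext
  apply Finsupp.lhom_ext
  intro g m
  have e1 := groupHomology.chainsMap_f_single A.subtype (xi A) n g m
  rw [xi_apply] at e1
  show (R1_f A n) ((groupHomology.chainsMap A.subtype (xi A)).f n (Finsupp.single g m)) =
    Finsupp.single g m
  rw [e1]
  have e2 : (⇑A.subtype ∘ g) = fun i => (g i : G) := rfl
  rw [e2]
  exact (R1_f_single A n _ _ m).trans (by rw [R1_c_one])

theorem iA_retract (A : Subgroup G) (n : ℕ) :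
    ∃ r : groupHomology (Rep.ofMulAction ℤ G (G ⧸ A)) n →ₗ[ℤ]
      groupHomology (Rep.trivial ℤ A ℤ) n, ∀ x, r (iA A n x) = x := by
  refine ⟨(HomologicalComplex.homologyMap (R1_r A) n).hom, fun x => ?_⟩
  have h : HomologicalComplex.homologyMap (groupHomology.chainsMap A.subtype (xi A)) n ≫
      HomologicalComplex.homologyMap (R1_r A) n = 𝟙 _ := by
    rw [← HomologicalComplex.homologyMap_comp, R1_comp, HomologicalComplex.homologyMap_id]
  have h2 := congrArg (fun f => f.hom x) h
  exact h2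

end Pool.Agent.LibCZ83
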