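import Pool.Agent.LibCZ83.Defs
import Pool.Agent.LibMC2.M4

/-!
R2. The Wang sequence of an abelian group `A = B × ⟨t⟩`, trivial coefficients.

PLAN. The short exact sequence of `A`-modules `0 → ℤ[A/B] → ℤ[A/B] → ℤ → 0`: first map `f = 1 - ρ(t)`
(`ρ(t)` = the action of `t`, a map of `A`-modules as `A` is abelian), second map `p` = the sum of the
coefficients. `f` injective: `c = t • c` has finite support and `⟨t⟩` acts freely on `A/B` with infinite
orbits (`h1`). Exactness: `A/B` is the orbit of `[1]` under `⟨t⟩` (`h2`), so `[x] - [1]` is in the image of `f`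
(`[t^k] - [1] = ± (1 - t)(…)`, induction), and every `c` with `p c = 0` is `∑ c_x ([x] - [1])`. `LibMC2.ses` gives
`ShortExact`; `groupHomology.mapShortComplex₃_exact / mapShortComplex₂_exact / ₁` or
`groupHomology.mono_δ_of_isZero` give the long exact sequence; `LibCod83.ind_trivial_iso B` with
`groupHomology.indIso B (Rep.trivial ℤ B ℤ) j` (see `LibCod83.nontrivial_of_pd`) gives
`groupHomology (Rep.ofMulAction ℤ A (A ⧸ B)) j ≅ groupHomology (Rep.trivial ℤ B ℤ) j`.
`wang_zero`: `H_{j+1}(ℤ[A/B]) = 0 → H_{j+1}(ℤ) → H_j(ℤ[A/B]) = 0`.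
`wang_inj`: `δ : H_{j+1}(ℤ) → H_j(ℤ[A/B])` is injective, composed with the isomorphism.
-/

set_option autoImplicit false

namespace Pool.Agent.LibCZ83

open CategoryTheory Pool.Agent.LibCod83

variable {A : Type} [Group A]

/-- the operator `1 - t` -/
private noncomputable def R2_f (hc : ∀ a b : A, a * b = b * a) (B : Subgroup A) (t : A) :
    Rep.ofMulAction ℤ A (A ⧸ B) ⟶ Rep.ofMulAction ℤ A (A ⧸ B) :=
  Rep.ofHom ⟨LinearMap.id - Representation.ofMulAction ℤ A (A ⧸ B) t, fun g => by
    refine LinearMap.ext fun c => ?_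
    show Representation.ofMulAction ℤ A (A ⧸ B) g c -
      Representation.ofMulAction ℤ A (A ⧸ B) t (Representation.ofMulAction ℤ A (A ⧸ B) g c) =
      Representation.ofMulAction ℤ A (A ⧸ B) g (c - Representation.ofMulAction ℤ A (A ⧸ B) t c)
    have h1 : Representation.ofMulAction ℤ A (A ⧸ B) t
        (Representation.ofMulAction ℤ A (A ⧸ B) g c) =
        Representation.ofMulAction ℤ A (A ⧸ B) (t * g) c := by
      rw [map_mul]
      rfl
    have h2 : Representation.ofMulAction ℤ A (A ⧸ B) g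
        (Representation.ofMulAction ℤ A (A ⧸ B) t c) =
        Representation.ofMulAction ℤ A (A ⧸ B) (g * t) c := by
      rw [map_mul]
      rfl
    rw [map_sub, h1, h2, hc t g]⟩

private theorem R2_f_apply (hc : ∀ a b : A, a * b = b * a) (B : Subgroup A) (t : A)
    (c : MonoidAlgebra ℤ (A ⧸ B)) : ((R2_f hc B t).hom c : MonoidAlgebra ℤ (A ⧸ B)) =
      c - Representation.ofMulAction ℤ A (A ⧸ B) t c := rfl

/-- the sum of the coefficients -/
private noncomputable def R2_s (B : Subgroup A) : MonoidAlgebra ℤ (A ⧸ B) →ₗ[ℤ] ℤ :=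
  (Finsupp.linearCombination ℤ fun _ : A ⧸ B => (1 : ℤ)) ∘ₗ
    (MonoidAlgebra.coeffLinearEquiv ℤ).toLinearMap

private theorem R2_s_single (B : Subgroup A) (x : A ⧸ B) (r : ℤ) :
    R2_s B (MonoidAlgebra.single x r) = r := by
  show Finsupp.linearCombination ℤ _ (Finsupp.single x r) = _
  rw [Finsupp.linearCombination_single, smul_eq_mul, mul_one]

private theorem R2_s_act (B : Subgroup A) (g : A) (c : MonoidAlgebra ℤ (A ⧸ B)) :
    R2_s B (Representation.ofMulAction ℤ A (A ⧸ B) g c) = R2_s B c := by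
  induction c using MonoidAlgebra.induction_linear with
  | zero => rw [map_zero]
  | add a b ha hb => rw [map_add, map_add, map_add, ha, hb]
  | single x r => rw [Representation.ofMulAction_single, R2_s_single, R2_s_single]

private noncomputable def R2_p (B : Subgroup A) :
    Rep.ofMulAction ℤ A (A ⧸ B) ⟶ Rep.trivial ℤ A ℤ :=
  Rep.ofHom ⟨R2_s B, fun g => LinearMap.ext fun c => R2_s_act B g c⟩

private theorem R2_p_apply (B : Subgroup A) (c : MonoidAlgebra ℤ (A ⧸ B)) :
    ((R2_p B).hom c : ℤ) = R2_s B c := rfl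

private theorem R2_inj (hc : ∀ a b : A, a * b = b * a) (B : Subgroup A) (t : A)
    (h1 : ∀ k : ℤ, t ^ k ∈ B → k = 0) : Function.Injective (R2_f hc B t).hom := by
  have key : ∀ c : MonoidAlgebra ℤ (A ⧸ B),
      ((R2_f hc B t).hom c : MonoidAlgebra ℤ (A ⧸ B)) = 0 → c = 0 := by
    intro c hc0
    rw [R2_f_apply, sub_eq_zero] at hc0
    have h2 : ∀ x : A ⧸ B, c.coeff (t • x) = c.coeff x := by
      intro x
      have h3 : c.coeff (t • x) =
          (Representation.ofMulAction ℤ A (A ⧸ B) t c).coeff (t • x) :=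
        congrArg (fun d : MonoidAlgebra ℤ (A ⧸ B) => d.coeff (t • x)) hc0
      rw [Representation.coeff_ofMulAction, inv_smul_smul] at h3
      exact h3
    have h4 : ∀ (k : ℕ) (x : A ⧸ B), c.coeff (t ^ k • x) = c.coeff x := by
      intro k
      induction k with
      | zero =>
        intro x
        rw [pow_zero, one_smul]
      | succ k ih =>
        intro x
        rw [pow_succ', mul_smul, h2, ih]
    by_contra hne
    obtain ⟨x, hx⟩ : ∃ x : A ⧸ B, c.coeff x ≠ 0 := by
      by_contra hall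
      push Not at hall
      exact hne (MonoidAlgebra.ext (Finsupp.ext fun x => hall x))
    have hinj : Function.Injective fun k : ℕ => t ^ k • x := by
      intro k l hkl
      simp only at hkl
      induction x using QuotientGroup.induction_on with
      | H g =>
        have h5 : (QuotientGroup.mk (t ^ k * g) : A ⧸ B) = QuotientGroup.mk (t ^ l * g) := hkl
        rw [QuotientGroup.eq] at h5
        have h6 : (t ^ k * g)⁻¹ * (t ^ l * g) = t ^ ((l : ℤ) - k) := by
          rw [mul_inv_rev, mul_assoc, ← mul_assoc (t ^ k)⁻¹, ← mul_assoc, zpow_sub, zpow_natCast,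
            zpow_natCast, hc (t ^ l) (t ^ k)⁻¹, hc g⁻¹, mul_assoc, inv_mul_cancel, mul_one]
        rw [h6] at h5
        have h7 := h1 _ h5
        omega
    have hfin : (Set.range fun k : ℕ => t ^ k • x).Finite := by
      refine c.coeff.support.finite_toSet.subset ?_
      rintro y ⟨k, rfl⟩
      refine Finsupp.mem_support_iff.2 ?_
      rw [h4]
      exact hx
    exact (Set.infinite_range_of_injective hinj) hfin
  intro x y hxy
  have h2 : ((R2_f hc B t).hom (x - y) : MonoidAlgebra ℤ (A ⧸ B)) = 0 := by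
    have h3 := map_sub (R2_f hc B t).hom x y
    rw [hxy, sub_self] at h3
    exact h3
  exact sub_eq_zero.1 (key _ h2)

private theorem R2_exact (hc : ∀ a b : A, a * b = b * a) (B : Subgroup A) (t : A)
    (h2 : ∀ a : A, ∃ k : ℤ, t ^ k * a ∈ B) (c : MonoidAlgebra ℤ (A ⧸ B)) :
    ∃ a : MonoidAlgebra ℤ (A ⧸ B), ((R2_f hc B t).hom a : MonoidAlgebra ℤ (A ⧸ B)) =
      c - MonoidAlgebra.single (QuotientGroup.mk 1 : A ⧸ B) (R2_s B c) := by
  have hL : ∀ a b : MonoidAlgebra ℤ (A ⧸ B),
      ((R2_f hc B t).hom (a + b) : MonoidAlgebra ℤ (A ⧸ B)) =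
        (R2_f hc B t).hom a + (R2_f hc B t).hom b := fun a b => map_add (R2_f hc B t).hom a b
  have hpow : ∀ (r k : ℤ), ∃ a : MonoidAlgebra ℤ (A ⧸ B),
      ((R2_f hc B t).hom a : MonoidAlgebra ℤ (A ⧸ B)) =
        MonoidAlgebra.single (t ^ k • (QuotientGroup.mk 1 : A ⧸ B)) r -
          MonoidAlgebra.single (QuotientGroup.mk 1 : A ⧸ B) r := by
    intro r k
    induction k using Int.induction_on with
    | zero =>
      refine ⟨0, ?_⟩
      rw [zpow_zero, one_smul, sub_self]
      exact map_zero (R2_f hc B t).hom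
    | succ n ih =>
      obtain ⟨a, ha⟩ := ih
      refine ⟨MonoidAlgebra.single (t ^ (n : ℤ) • (QuotientGroup.mk 1 : A ⧸ B)) (-r) + a, ?_⟩
      rw [hL, ha, R2_f_apply, Representation.ofMulAction_single, zpow_add_one, hc (t ^ (n : ℤ)) t,
        mul_smul]
      rw [MonoidAlgebra.single_neg, MonoidAlgebra.single_neg]
      abel
    | pred n ih =>
      obtain ⟨a, ha⟩ := ih
      refine ⟨MonoidAlgebra.single (t ^ (-(n : ℤ) - 1) • (QuotientGroup.mk 1 : A ⧸ B)) r + a, ?_⟩
      have h3 : t • t ^ (-(n : ℤ) - 1) • (QuotientGroup.mk 1 : A ⧸ B) =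
          t ^ (-(n : ℤ)) • (QuotientGroup.mk 1 : A ⧸ B) := by
        rw [← mul_smul, ← zpow_one_add]
        congr 2
        ring
      rw [hL, ha, R2_f_apply, Representation.ofMulAction_single, h3]
      abel
  induction c using MonoidAlgebra.induction_linear with
  | zero =>
    refine ⟨0, (map_zero (R2_f hc B t).hom).trans ?_⟩
    have h3 : R2_s B 0 = 0 := map_zero (R2_s B)
    rw [h3, MonoidAlgebra.single_zero, sub_zero]
  | add a b ha hb =>
    obtain ⟨a', ha'⟩ := ha
    obtain ⟨b', hb'⟩ := hb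
    refine ⟨a' + b', ?_⟩
    rw [hL, ha', hb', map_add, MonoidAlgebra.single_add]
    abel
  | single x r =>
    rw [R2_s_single]
    induction x using QuotientGroup.induction_on with
    | H g =>
      obtain ⟨k, hk⟩ := h2 g
      have h3 : (QuotientGroup.mk g : A ⧸ B) = t ^ (-k) • (QuotientGroup.mk 1 : A ⧸ B) := by
        rw [zpow_neg, eq_inv_smul_iff]
        show (QuotientGroup.mk (t ^ k * g) : A ⧸ B) = QuotientGroup.mk 1
        rw [eq_comm, QuotientGroup.eq, inv_one, one_mul]
        exact hk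
      rw [h3]
      exact hpow r (-k)

theorem wang_inj (hc : ∀ a b : A, a * b = b * a) (B : Subgroup A) (t : A)
    (h1 : ∀ k : ℤ, t ^ k ∈ B → k = 0) (h2 : ∀ a : A, ∃ k : ℤ, t ^ k * a ∈ B) (j : ℕ)
    (h : Subsingleton (groupHomology (Rep.trivial ℤ B ℤ) (j + 1))) :
    ∃ f : groupHomology (Rep.trivial ℤ A ℤ) (j + 1) →ₗ[ℤ] groupHomology (Rep.trivial ℤ B ℤ) j,
      Function.Injective f := by
  classical
  obtain ⟨w, hS⟩ := LibMC2.ses (R2_f hc B t) (R2_p B) (R2_inj hc B t h1)
    (fun r => ⟨(MonoidAlgebra.single (QuotientGroup.mk 1 : A ⧸ B) (r : ℤ) :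
      MonoidAlgebra ℤ (A ⧸ B)), R2_s_single B _ _⟩)
    (fun a => by
      show R2_s B ((a : MonoidAlgebra ℤ (A ⧸ B)) -
        Representation.ofMulAction ℤ A (A ⧸ B) t a) = 0
      rw [map_sub, R2_s_act, sub_self])
    (fun b hb => by
      obtain ⟨a, ha⟩ := R2_exact hc B t h2 b
      refine ⟨a, ha.trans ?_⟩
      have hb' : R2_s B b = 0 := hb
      rw [hb', MonoidAlgebra.single_zero, sub_zero])
  obtain ⟨e2⟩ := ind_trivial_iso B
  have e : ∀ n : ℕ, groupHomology (Rep.ofMulAction ℤ A (A ⧸ B)) n ≅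
      groupHomology (Rep.trivial ℤ B ℤ) n := fun n =>
    ((groupHomology.functor ℤ A n).mapIso e2).symm ≪≫
      groupHomology.indIso B (Rep.trivial ℤ B ℤ) n
  have hz : Limits.IsZero (groupHomology (Rep.ofMulAction ℤ A (A ⧸ B)) (j + 1)) := by
    have : Subsingleton (groupHomology (Rep.ofMulAction ℤ A (A ⧸ B)) (j + 1)) :=
      (e (j + 1)).toLinearEquiv.toEquiv.subsingleton
    exact ModuleCat.isZero_of_subsingleton _
  have hmono := groupHomology.mono_δ_of_isZero hS j hz
  rw [ModuleCat.mono_iff_injective] at hmono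
  exact ⟨(e j).toLinearEquiv.toLinearMap ∘ₗ (groupHomology.δ hS (j + 1) j rfl).hom,
    (e j).toLinearEquiv.injective.comp hmono⟩

theorem wang_zero (hc : ∀ a b : A, a * b = b * a) (B : Subgroup A) (t : A)
    (h1 : ∀ k : ℤ, t ^ k ∈ B → k = 0) (h2 : ∀ a : A, ∃ k : ℤ, t ^ k * a ∈ B) (j : ℕ)
    (h : Subsingleton (groupHomology (Rep.trivial ℤ B ℤ) (j + 1)))
    (h' : Subsingleton (groupHomology (Rep.trivial ℤ B ℤ) j)) :
    Subsingleton (groupHomology (Rep.trivial ℤ A ℤ) (j + 1)) := by
  obtain ⟨f, hf⟩ := wang_inj hc B t h1 h2 j h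
  exact hf.subsingleton

end Pool.Agent.LibCZ83
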